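import Mathlib
import Pool.Agent.Helper65.SL.Base

/-! Project SL, module LOC: the trace inequality at a slice of locally minimal density. -/

set_option maxSynthPendingDepth 3
set_option linter.unusedSectionVars false
set_option linter.deprecated false
set_option linter.unusedVariables false

namespace Pool.Agent.Helper80.SL

open Filter Topology
open scoped ContDiff Manifold
open Pool.Agent.Helper65.SL Pool.Agent.Helper23.Ric

variable {V W : Type*} [NormedAddCommGroup V] [NormedSpace ℝ V] [FiniteDimensional ℝ V]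
  [NormedAddCommGroup W] [NormedSpace ℝ W] [FiniteDimensional ℝ W]

variable {G : V × W → (V × W) →L[ℝ] (V × W) →L[ℝ] ℝ} {w₀ : V} {z₀ : W}

/-- a symmetric positive definite form has an orthonormal basis -/
theorem exists_isOrtho (B : V →L[ℝ] V →L[ℝ] ℝ) (hs : ∀ v w, B v w = B w v)
    (hp : ∀ v, v ≠ 0 → 0 < B v v) :
    ∃ f : Fin (Module.finrank ℝ V) → V, IsOrtho B f := by
  let Bf : LinearMap.BilinForm ℝ V := LinearMap.mk₂ ℝ (fun x y => B x y)
    (by intro x x' y; simp) (by intro c x y; simp) (by intro x y y'; simp) (by intro c x y; simp)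
  have hBf : ∀ x y, Bf x y = B x y := fun x y => rfl
  have hsymm : LinearMap.IsSymm Bf := ⟨fun x y => by simpa [hBf] using hs x y⟩
  obtain ⟨v, hv⟩ := LinearMap.BilinForm.exists_orthogonal_basis hsymm
  have hpos : ∀ i, 0 < B (v i) (v i) := fun i => hp _ (v.ne_zero i)
  refine ⟨fun i => (1 / Real.sqrt (B (v i) (v i))) • v i, ?_⟩
  intro i j
  simp only [map_smul, ContinuousLinearMap.smul_apply, smul_eq_mul]
  by_cases hij : i = j
  · subst hij
    rw [if_pos rfl]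
    have h1 : Real.sqrt (B (v i) (v i)) * Real.sqrt (B (v i) (v i)) = B (v i) (v i) :=
      Real.mul_self_sqrt (hpos i).le
    have h2 : 0 < Real.sqrt (B (v i) (v i)) := Real.sqrt_pos.2 (hpos i)
    field_simp
    nlinarith
  · rw [if_neg hij]
    have h1 : B (v i) (v j) = 0 := by
      have := hv hij
      simpa [LinearMap.IsOrthoᵢ, hBf] using this
    rw [h1]
    ring

theorem trace_split {k m : ℕ} {BV : V →L[ℝ] V →L[ℝ] ℝ} {BW : W →L[ℝ] W →L[ℝ] ℝ}
    {f : Fin k → V} {e : Fin m → W} (hf : IsOrtho BV f) (hk : k = Module.finrank ℝ V)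
    (he : IsOrtho BW e) (hm : m = Module.finrank ℝ W) (T : V × W →ₗ[ℝ] V × W) :
    LinearMap.trace ℝ (V × W) T =
      ∑ a, BV (T (f a, 0)).1 (f a) + ∑ j, BW (T (0, e j)).2 (e j) := by
  obtain ⟨bV, hbV, hcV⟩ := ortho_basis hf hk
  obtain ⟨bW, hbW, hcW⟩ := ortho_basis he hm
  rw [LinearMap.trace_eq_matrix_trace ℝ (bV.prod bW), Matrix.trace, Fintype.sum_sum_type]
  congr 1
  · refine Finset.sum_congr rfl fun a _ => ?_
    rw [Matrix.diag_apply, LinearMap.toMatrix_apply, Module.Basis.prod_repr_inl, ← hcV]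
    have h1 : (bV.prod bW) (Sum.inl a) = (f a, 0) := by
      rw [Module.Basis.prod_apply]
      simp [hbV]
    rw [h1]
    rfl
  · refine Finset.sum_congr rfl fun a _ => ?_
    rw [Matrix.diag_apply, LinearMap.toMatrix_apply, Module.Basis.prod_repr_inr, ← hcW]
    have h1 : (bV.prod bW) (Sum.inr a) = (0, e a) := by
      rw [Module.Basis.prod_apply]
      simp [hbW]
    rw [h1]
    rfl

theorem hasFDerivAt_slice {w : V} (hd : DifferentiableAt ℝ G (w, z₀)) (v v' : W) :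
    HasFDerivAt (fun w : V => G (w, z₀) (0, v) (0, v'))
      (((((fderiv ℝ G (w, z₀)).comp (ContinuousLinearMap.inl ℝ V W)).flip (0, v)).flip (0, v'))) w := by
  have h1 : HasFDerivAt (fun w : V => G (w, z₀)) ((fderiv ℝ G (w, z₀)).comp
      (ContinuousLinearMap.inl ℝ V W)) w :=
    hd.hasFDerivAt.comp w (hasFDerivAt_prodMk_left w z₀)
  have h3 := (h1.clm_apply (hasFDerivAt_const ((0 : V), v) w)).clm_apply
    (hasFDerivAt_const ((0 : V), v') w)
  refine h3.congr_fderiv ?_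
  ext x
  simp

theorem fderiv_slice (h : SplitAt G w₀ z₀) (u : V) (v v' : W) :
    fderiv ℝ (fun w : V => G (w, z₀) (0, v) (0, v')) w₀ u = dW G w₀ z₀ u v v' := by
  rw [(hasFDerivAt_slice (differentiableAt_of_good h.good) v v').fderiv]
  simp [dW]

theorem contDiffAt_slice (h : SplitAt G w₀ z₀) (v v' : W) :
    ContDiffAt ℝ 2 (fun w : V => G (w, z₀) (0, v) (0, v')) w₀ := by
  have h0 : ContDiffAt ℝ 2 (fun w : V => (w, z₀)) w₀ := contDiffAt_id.prodMk contDiffAt_const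
  have h1 : ContDiffAt ℝ 2 (fun w : V => G (w, z₀)) w₀ :=
    ContDiffAt.comp w₀ (g := G) (f := fun w : V => (w, z₀)) h.good.smooth h0
  exact (h1.clm_apply contDiffAt_const).clm_apply contDiffAt_const

theorem fderiv2_slice (h : SplitAt G w₀ z₀) (u : V) (v v' : W) :
    fderiv ℝ (fderiv ℝ (fun w : V => G (w, z₀) (0, v) (0, v'))) w₀ u u = ddW G w₀ z₀ u u v v' := by
  have hD : DifferentiableAt ℝ (fderiv ℝ (fun w : V => G (w, z₀) (0, v) (0, v'))) w₀ :=
    ((contDiffAt_slice h v v').fderiv_right (m := 1) (by norm_num)).differentiableAt (by norm_num)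
  have h1 : fderiv ℝ (fun w => fderiv ℝ (fun w : V => G (w, z₀) (0, v) (0, v')) w u) w₀ u =
      fderiv ℝ (fderiv ℝ (fun w : V => G (w, z₀) (0, v) (0, v'))) w₀ u u := by
    have h2 := hD.hasFDerivAt.clm_apply (hasFDerivAt_const u w₀)
    rw [h2.fderiv]
    simp
  rw [← h1]
  have hsl : Tendsto (fun w : V => (w, z₀)) (𝓝 w₀) (𝓝 (w₀, z₀)) :=
    (continuous_id.prodMk continuous_const).tendsto _
  have h3 : (fun w => fderiv ℝ (fun w : V => G (w, z₀) (0, v) (0, v')) w u) =ᶠ[𝓝 w₀]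
      fun w => fderiv ℝ G (w, z₀) (u, 0) (0, v) (0, v') := by
    filter_upwards [hsl.eventually h.good.eventually] with w hw
    rw [(hasFDerivAt_slice (differentiableAt_of_good hw) v v').fderiv]
    simp
  rw [h3.fderiv_eq]
  have hD2 : DifferentiableAt ℝ (fderiv ℝ G) (w₀, z₀) :=
    (h.good.smooth.fderiv_right (m := 1) (by norm_num)).differentiableAt (by norm_num)
  have h4 : HasFDerivAt (fun w : V => fderiv ℝ G (w, z₀)) ((fderiv ℝ (fderiv ℝ G) (w₀, z₀)).comp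
      (ContinuousLinearMap.inl ℝ V W)) w₀ :=
    hD2.hasFDerivAt.comp w₀ (hasFDerivAt_prodMk_left w₀ z₀)
  have h5 := ((h4.clm_apply (hasFDerivAt_const (u, (0 : W)) w₀)).clm_apply
    (hasFDerivAt_const ((0 : V), v) w₀)).clm_apply (hasFDerivAt_const ((0 : V), v') w₀)
  rw [h5.fderiv]
  simp [ddW]

theorem loc
    (jac : ∀ {m : ℕ} {F : V → Matrix (Fin m) (Fin m) ℝ}
      (hF : ∀ i j, ContDiffAt ℝ 2 (fun w => F w i j) w₀) (h1 : F w₀ = 1)
      (hmin : IsLocalMin (fun w => (F w).det) w₀) (u : V),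
      ∑ i, fderiv ℝ (fun w => F w i i) w₀ u = 0 ∧
        ∑ i, ∑ j, fderiv ℝ (fun w => F w i j) w₀ u * fderiv ℝ (fun w => F w j i) w₀ u ≤
          ∑ i, fderiv ℝ (fderiv ℝ (fun w => F w i i)) w₀ u u)
    (rvs : ∀ (h : SplitAt G w₀ z₀) {k m : ℕ} (f : Fin k → V) (hf : IsOrtho (blockV G w₀ z₀) f)
      (hk : k = Module.finrank ℝ V) (e : Fin m → W) (he : IsOrtho (blockW G w₀ z₀) e)
      (hm : m = Module.finrank ℝ W) (v : W),
      ∑ a, blockV G w₀ z₀ (riem G (w₀, z₀) (f a, 0) (0, v) (0, v)).1 (f a) =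
        LinearMap.trace ℝ V (aLin G w₀ z₀ v)
        + ∑ a, (-(1 / 2) * ddW G w₀ z₀ (f a) (f a) v v
          + (1 / 2) * dW G w₀ z₀ (chris G (w₀, z₀) (f a, 0) (f a, 0)).1 v v
          + (1 / 4) * ∑ j, (dW G w₀ z₀ (f a) v (e j)) ^ 2))
    (rws : ∀ (h : SplitAt G w₀ z₀) {k m : ℕ} (f : Fin k → V) (hf : IsOrtho (blockV G w₀ z₀) f)
      (hk : k = Module.finrank ℝ V) (e : Fin m → W) (he : IsOrtho (blockW G w₀ z₀) e)
      (hm : m = Module.finrank ℝ W) (v : W),
      ∑ j, blockW G w₀ z₀ (riem G (w₀, z₀) (0, e j) (0, v) (0, v)).2 (e j) =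
        ricci (blockW G w₀) z₀ v v
        + ∑ a, ((1 / 4) * ∑ j, (dW G w₀ z₀ (f a) v (e j)) ^ 2
          - (1 / 4) * dW G w₀ z₀ (f a) v v * ∑ j, dW G w₀ z₀ (f a) (e j) (e j)))
    (h : SplitAt G w₀ z₀) {m : ℕ} (hm : m = Module.finrank ℝ W) (e : Fin m → W)
    (he : IsOrtho (blockW G w₀ z₀) e)
    (hmin : IsLocalMin (fun w => (Matrix.of fun i j => G (w, z₀) (0, e i) (0, e j)).det) w₀) :
    ∑ i, ricci G (w₀, z₀) (0, e i) (0, e i) ≤
      ∑ i, (LinearMap.trace ℝ V (aLin G w₀ z₀ (e i)) + ricci (blockW G w₀) z₀ (e i) (e i)) := by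
  obtain ⟨f, hf⟩ := exists_isOrtho (blockV G w₀ z₀)
    (fun v w => h.goodV.2.1.self_of_nhds v w) h.goodV.2.2.self_of_nhds
  have hric : ∀ v : W, ricci G (w₀, z₀) (0, v) (0, v) =
      ∑ a, blockV G w₀ z₀ (riem G (w₀, z₀) (f a, 0) (0, v) (0, v)).1 (f a) +
      ∑ j, blockW G w₀ z₀ (riem G (w₀, z₀) (0, e j) (0, v) (0, v)).2 (e j) := by
    intro v
    rw [ricci_eq_trace h.good, trace_split hf rfl he hm]
    rfl
  have hdsymm : ∀ u v v', dW G w₀ z₀ u v v' = dW G w₀ z₀ u v' v := fun u v v' => by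
    rw [dW, dW, fderiv_symm h.good]
  -- the two facts from `jac`
  have hj := fun u : V => jac (m := m) (F := fun w => Matrix.of fun i j => G (w, z₀) (0, e i) (0, e j))
    (fun i j => contDiffAt_slice h (e i) (e j)) (by
      ext i j
      rw [Matrix.of_apply, Matrix.one_apply]
      exact he i j) hmin u
  have hj1 : ∀ u : V, ∑ i, dW G w₀ z₀ u (e i) (e i) = 0 := by
    intro u
    rw [← (hj u).1]
    refine Finset.sum_congr rfl fun i _ => ?_
    exact (fderiv_slice h u (e i) (e i)).symm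
  have hj2 : ∀ u : V, ∑ i, ∑ j, (dW G w₀ z₀ u (e i) (e j)) ^ 2 ≤ ∑ i, ddW G w₀ z₀ u u (e i) (e i) := by
    intro u
    have h1 : ∑ i, ∑ j, (dW G w₀ z₀ u (e i) (e j)) ^ 2 =
        ∑ i, ∑ j, fderiv ℝ (fun w => G (w, z₀) (0, e i) (0, e j)) w₀ u *
          fderiv ℝ (fun w => G (w, z₀) (0, e j) (0, e i)) w₀ u := by
      refine Finset.sum_congr rfl fun i _ => Finset.sum_congr rfl fun j _ => ?_
      rw [fderiv_slice h, fderiv_slice h, hdsymm u (e j) (e i)]
      ring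
    have h2 : ∑ i, ddW G w₀ z₀ u u (e i) (e i) =
        ∑ i, fderiv ℝ (fderiv ℝ (fun w => G (w, z₀) (0, e i) (0, e i))) w₀ u u := by
      refine Finset.sum_congr rfl fun i _ => ?_
      rw [fderiv2_slice h]
    rw [h1, h2]
    exact (hj u).2
  have hsum : ∑ i, ricci G (w₀, z₀) (0, e i) (0, e i) =
      ∑ i, (LinearMap.trace ℝ V (aLin G w₀ z₀ (e i)) + ricci (blockW G w₀) z₀ (e i) (e i)) +
      ∑ a, (-(1 / 2) * ∑ i, ddW G w₀ z₀ (f a) (f a) (e i) (e i)
        + (1 / 2) * ∑ i, dW G w₀ z₀ (chris G (w₀, z₀) (f a, 0) (f a, 0)).1 (e i) (e i)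
        + (1 / 2) * ∑ i, ∑ j, (dW G w₀ z₀ (f a) (e i) (e j)) ^ 2
        - (1 / 4) * (∑ i, dW G w₀ z₀ (f a) (e i) (e i)) * ∑ j, dW G w₀ z₀ (f a) (e j) (e j)) := by
    have h1 : ∀ i, ricci G (w₀, z₀) (0, e i) (0, e i) =
        (LinearMap.trace ℝ V (aLin G w₀ z₀ (e i)) + ricci (blockW G w₀) z₀ (e i) (e i)) +
        ∑ a, (-(1 / 2) * ddW G w₀ z₀ (f a) (f a) (e i) (e i)
          + (1 / 2) * dW G w₀ z₀ (chris G (w₀, z₀) (f a, 0) (f a, 0)).1 (e i) (e i)
          + (1 / 2) * ∑ j, (dW G w₀ z₀ (f a) (e i) (e j)) ^ 2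
          - (1 / 4) * dW G w₀ z₀ (f a) (e i) (e i) * ∑ j, dW G w₀ z₀ (f a) (e j) (e j)) := by
      intro i
      rw [hric, rvs h f hf rfl e he hm, rws h f hf rfl e he hm]
      have h2 : ∀ (A B C D : ℝ), (A + B) + (C + D) = (A + C) + (B + D) := by intros; ring
      rw [h2, ← Finset.sum_add_distrib]
      congr 1
      refine Finset.sum_congr rfl fun a _ => ?_
      ring
    rw [Finset.sum_congr rfl fun i _ => h1 i, Finset.sum_add_distrib, Finset.sum_comm]
    congr 1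
    refine Finset.sum_congr rfl fun a _ => ?_
    have h5 : ∀ S : ℝ, ∑ i, (1 / 4) * dW G w₀ z₀ (f a) (e i) (e i) * S =
        (1 / 4) * (∑ i, dW G w₀ z₀ (f a) (e i) (e i)) * S := by
      intro S
      rw [← Finset.sum_mul, Finset.mul_sum]
    rw [Finset.sum_sub_distrib, Finset.sum_add_distrib, Finset.sum_add_distrib, h5,
      ← Finset.mul_sum, ← Finset.mul_sum, ← Finset.mul_sum]
  rw [hsum]
  have hneg : ∑ a, (-(1 / 2) * ∑ i, ddW G w₀ z₀ (f a) (f a) (e i) (e i)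
        + (1 / 2) * ∑ i, dW G w₀ z₀ (chris G (w₀, z₀) (f a, 0) (f a, 0)).1 (e i) (e i)
        + (1 / 2) * ∑ i, ∑ j, (dW G w₀ z₀ (f a) (e i) (e j)) ^ 2
        - (1 / 4) * (∑ i, dW G w₀ z₀ (f a) (e i) (e i)) * ∑ j, dW G w₀ z₀ (f a) (e j) (e j)) ≤ 0 := by
    apply Finset.sum_nonpos
    intro a _
    rw [hj1, hj1]
    have := hj2 (f a)
    linarith
  linarith

end Pool.Agent.Helper80.SL
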